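import Pool.Agent.W540.EC.A1

/-!
Project EC, assembly, part 2: bound and average of the tree functions.
-/

set_option autoImplicit false

namespace Pool.Agent.W540.EC

open Finset Filter
open Pool.Agent.H376R2.MR
open Pool.Agent.W78.GA
open Pool.Agent.W78.EC

/-- second divisibility -/
theorem dv_second {p : ℕ} (hp : p.Prime) {r : ℤ} {y : ℕ × ℕ × ℕ × ℕ} {x x' : ℕ × ℕ}
    (h0 : ¬ p ∣ x.1) (hcd : cd x x' = p) (h : dv p r y x) : dv p r y x' := by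
  unfold dv at h ⊢
  unfold cd at hcd
  have h1 : (p : ℤ) ∣ (x.1 : ℤ) * ((x'.1 : ℤ) * (y.1 + r * y.2.1) + x'.2 * (y.2.2.1 + r * y.2.2.2)) := by
    have e1 : (x.1 : ℤ) * ((x'.1 : ℤ) * (y.1 + r * y.2.1) + x'.2 * (y.2.2.1 + r * y.2.2.2)) =
      x'.1 * (x.1 * (y.1 + r * y.2.1) + x.2 * (y.2.2.1 + r * y.2.2.2)) +
        p * (y.2.2.1 + r * y.2.2.2) := by
      linear_combination ((y.2.2.1 : ℤ) + r * y.2.2.2) * hcd
    rw [e1]
    exact dvd_add (h.mul_left _) (dvd_mul_right _ _)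
  rcases (Nat.prime_iff_prime_int.1 hp).dvd_or_dvd h1 with h2 | h2
  · exact absurd (Int.natCast_dvd_natCast.1 h2) h0
  · exact h2

theorem PQ_mem {Q p : ℕ} (h : p ∈ PQ Q) : Q < p ∧ p ≤ 2 * Q ∧ p.Prime ∧ p % 4 = 1 := by
  unfold PQ at h
  rw [mem_filter, mem_Ioc] at h
  exact ⟨h.1.1, h.1.2, h.2.1, h.2.2⟩

/-- coordinates of the vectors of the cone over a good edge -/
theorem co_bounds (h11 : S_DTB) {K : ℕ} {κ : ℝ} {Q : ℕ} {X : ℝ} (hK : 1 ≤ K) (hκ : 0 < κ)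
    (hQ : 1 ≤ Q) (hX : 2 * (K * Q : ℝ) ≤ X) {e : Gi × Gi} (he : e ∈ good K κ Q X) {v : Gi}
    (hv : v ∈ cone X e.1 e.2) : 1 ≤ (co e v).1 ∧ 1 ≤ (co e v).2 ∧
      ((co e v).1 : ℝ) ^ 2 ≤ K * Q / κ ∧ ((co e v).2 : ℝ) ^ 2 ≤ K * Q / κ := by
  obtain ⟨x, y, hx, hy, hx2, hy2, hvxy⟩ := (h11 K κ Q X hK hκ hQ hX e he).2 v hv
  have hdt : dt e.1 e.2 = 1 := by
    unfold good at he
    rw [mem_filter] at he
    have he1 := he.1
    unfold edge at he1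
    rw [mem_filter] at he1
    exact he1.2.1
  have h1 : co e v = (x, y) := by
    rw [hvxy]
    exact co_comb hdt (x, y)
  rw [h1]
  exact ⟨hx, hy, hx2, hy2⟩

theorem good_edge {K : ℕ} {κ : ℝ} {Q : ℕ} {X : ℝ} {e : Gi × Gi} (he : e ∈ good K κ Q X) :
    e ∈ edge 0 1 (X / (K * Q)) ∧ dt e.1 e.2 = 1 := by
  unfold good at he
  rw [mem_filter] at he
  have he1 := he.1
  refine ⟨he1, ?_⟩
  unfold edge at he1
  rw [mem_filter] at he1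
  exact he1.2.1

/-- if `Q > K/κ`, the coordinates are less than `p` -/
theorem co_lt (h11 : S_DTB) {K : ℕ} {κ : ℝ} {Q : ℕ} {X : ℝ} (hK : 1 ≤ K) (hκ : 0 < κ)
    (hQ : (K : ℝ) / κ < Q) (hX : 2 * (K * Q : ℝ) ≤ X) {e : Gi × Gi} (he : e ∈ good K κ Q X) {v : Gi}
    (hv : v ∈ cone X e.1 e.2) {p : ℕ} (hp : p ∈ PQ Q) : ¬ p ∣ (co e v).1 := by
  have hK0 : (0 : ℝ) < K := by exact_mod_cast hK
  have hQ0 : (0 : ℝ) < Q := lt_trans (div_pos hK0 hκ) hQ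
  have hQ1 : 1 ≤ Q := by exact_mod_cast hQ0
  obtain ⟨h1, h2, h3, h4⟩ := co_bounds h11 hK hκ hQ1 hX he hv
  intro hd
  have h5 := Nat.le_of_dvd (by omega) hd
  have h6 : (p : ℝ) ≤ (co e v).1 := by exact_mod_cast h5
  have h7 : (Q : ℝ) < p := by exact_mod_cast (PQ_mem hp).1
  have h8 : (K * Q / κ : ℝ) < Q * Q := by
    have : (K * Q / κ : ℝ) = K / κ * Q := by ring
    rw [this]
    exact mul_lt_mul_of_pos_right hQ hQ0
  nlinarith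

open scoped Classical in
/-- the number of terms -/
theorem card_pairs (h11 : S_DTB) {K : ℕ} {κ : ℝ} {Q : ℕ} {X : ℝ} (hK : 1 ≤ K) (hκ : 0 < κ)
    (hQ : (K : ℝ) / κ < Q) (hX : 2 * (K * Q : ℝ) ≤ X) {e : Gi × Gi} (he : e ∈ good K κ Q X)
    {B C₀ : ℕ} (hC₀ : (K : ℝ) / κ ≤ C₀)
    (hB : ∀ (Q p : ℕ) (r : ℤ) (y : ℕ × ℕ × ℕ × ℕ) (R : ℕ), p ∈ PQ Q →
      R ^ 2 ≤ C₀ * Q → y ∈ SL p →
      (((range (R + 1) ×ˢ range (R + 1)) ×ˢ (range (R + 1) ×ˢ range (R + 1))).filter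
        (fun q => cd q.1 q.2 = p ∧ dv p r y q.1 ∧ dv p r y q.2)).card ≤ B) {p : ℕ} (hp : p ∈ PQ Q)
    (r : ℤ) {y : ℕ × ℕ × ℕ × ℕ} (hy : y ∈ SL p) :
    ((cone X e.1 e.2 ×ˢ cone X e.1 e.2).filter (fun q => dt q.1 q.2 = p ∧ dv p r y (co e q.1))).card
      ≤ B := by
  have hK0 : (0 : ℝ) < K := by exact_mod_cast hK
  have hQ0 : (0 : ℝ) < Q := lt_trans (div_pos hK0 hκ) hQ
  have hQ1 : 1 ≤ Q := by exact_mod_cast hQ0
  have hdt := (good_edge he).2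
  set R : ℕ := ⌊Real.sqrt (K * Q / κ)⌋₊ with hR
  have hR2 : R ^ 2 ≤ C₀ * Q := by
    have h1 : (R : ℝ) ≤ Real.sqrt (K * Q / κ) := Nat.floor_le (Real.sqrt_nonneg _)
    have h2 : (R : ℝ) ^ 2 ≤ K * Q / κ := by
      calc (R : ℝ) ^ 2 ≤ Real.sqrt (K * Q / κ) ^ 2 := by
            exact pow_le_pow_left₀ (by positivity) h1 2
        _ = K * Q / κ := Real.sq_sqrt (by positivity)
    have h3 : (K * Q / κ : ℝ) ≤ C₀ * Q := by
      have : (K * Q / κ : ℝ) = K / κ * Q := by ring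
      rw [this]
      exact mul_le_mul_of_nonneg_right hC₀ hQ0.le
    have h4 : ((R ^ 2 : ℕ) : ℝ) ≤ ((C₀ * Q : ℕ) : ℝ) := by
      push_cast
      exact h2.trans h3
    exact_mod_cast h4
  have hle : ∀ x : ℕ, (x : ℝ) ^ 2 ≤ K * Q / κ → x < R + 1 := by
    intro x hx
    have h1 : (x : ℝ) ≤ Real.sqrt (K * Q / κ) := Real.le_sqrt_of_sq_le hx
    exact Nat.lt_succ_of_le (Nat.le_floor h1)
  refine le_trans ?_ (hB Q p r y R hp hR2 hy)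
  refine card_le_card_of_injOn (fun q => (co e q.1, co e q.2)) ?_ ?_
  · intro q hq
    rw [mem_coe, mem_filter, mem_product] at hq
    obtain ⟨⟨hq1, hq2⟩, hq3, hq4⟩ := hq
    obtain ⟨a1, a2, a3, a4⟩ := co_bounds h11 hK hκ hQ1 hX he hq1
    obtain ⟨b1, b2, b3, b4⟩ := co_bounds h11 hK hκ hQ1 hX he hq2
    rw [mem_coe, mem_filter]
    refine ⟨?_, ?_, hq4, ?_⟩
    · simp only [mem_product, mem_range]
      exact ⟨⟨hle _ a3, hle _ a4⟩, hle _ b3, hle _ b4⟩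
    · simp only
      rw [cd_co hdt hq1 hq2, hq3]
    · simp only
      refine dv_second (PQ_mem hp).2.2.1 (co_lt h11 hK hκ hQ hX he hq1 hp) ?_ hq4
      rw [cd_co hdt hq1 hq2, hq3]
  · intro q hq q' hq' hqq
    rw [mem_coe, mem_filter, mem_product] at hq hq'
    simp only [Prod.mk.injEq] at hqq
    exact Prod.ext (co_inj hdt hq.1.1 hq'.1.1 hqq.1) (co_inj hdt hq.1.2 hq'.1.2 hqq.2)

theorem tri_mul {a b : ℝ} (ha : a = 0 ∨ a = 1 ∨ a = -1) (hb : b = 0 ∨ b = 1 ∨ b = -1) :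
    |a * b| ≤ 1 := by
  rcases ha with h | h | h <;> rcases hb with h' | h' | h' <;> rw [h, h'] <;> simp

/-- bound of the tree functions -/
theorem Z0_bound (h6 : S_PTS) (h11 : S_DTB) {u v : Gi → ℝ} (hu : ∀ z, u z = 0 ∨ u z = 1 ∨ u z = -1)
    (hv : ∀ z, v z = 0 ∨ v z = 1 ∨ v z = -1) {K : ℕ} {κ : ℝ} {Q : ℕ} {X : ℝ} (hK : 1 ≤ K)
    (hκ : 0 < κ) (hQ : (K : ℝ) / κ < Q) (hX : 2 * (K * Q : ℝ) ≤ X) {e : Gi × Gi}
    (he : e ∈ good K κ Q X) {B C₀ : ℕ} (hC₀ : (K : ℝ) / κ ≤ C₀)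
    (hB : ∀ (Q p : ℕ) (r : ℤ) (y : ℕ × ℕ × ℕ × ℕ) (R : ℕ), p ∈ PQ Q →
      R ^ 2 ≤ C₀ * Q → y ∈ SL p →
      (((range (R + 1) ×ˢ range (R + 1)) ×ˢ (range (R + 1) ×ˢ range (R + 1))).filter
        (fun q => cd q.1 q.2 = p ∧ dv p r y q.1 ∧ dv p r y q.2)).card ≤ B) {p : ℕ} (hp : p ∈ PQ Q)
    (r : ℤ) {y : ℕ × ℕ × ℕ × ℕ} (hy : y ∈ SL p) :
    |Z0 Q p r (TT (lb u v) X e) y| ≤ 2 * B := by
  have hK0 : (0 : ℝ) < K := by exact_mod_cast hK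
  have hK1 : (1 : ℝ) ≤ K := by exact_mod_cast hK
  have hQ0 : (0 : ℝ) < Q := lt_trans (div_pos hK0 hκ) hQ
  have hQ1 : 1 ≤ Q := by exact_mod_cast hQ0
  have hQ1' : (1 : ℝ) ≤ Q := by exact_mod_cast hQ1
  have hKQ : (0 : ℝ) < K * Q := by positivity
  have hY : 2 ≤ X / (K * Q) := by
    rw [le_div_iff₀ hKQ]
    exact hX
  have hYX : X / (K * Q) ≤ X := by
    have hX0 : 0 ≤ X := le_trans (by positivity) hX
    exact div_le_self hX0 (by nlinarith)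
  rw [Z0_eq h6 hu hv hY hYX (good_edge he).1 Q p r y, abs_mul]
  have h1 : |((p : ℝ) + 1) / (2 * Q)| ≤ 2 := by
    rw [abs_of_nonneg (by positivity), div_le_iff₀ (by positivity)]
    have : (p : ℝ) ≤ 2 * Q := by exact_mod_cast (PQ_mem hp).2.1
    linarith
  have h2 : |∑ z ∈ cone X e.1 e.2, ∑ w ∈ cone X e.1 e.2,
        if dt z w = p ∧ dv p r y (co e z) then u z * v w else 0| ≤ B := by
    rw [← sum_product']
    refine (abs_sum_le_sum_abs _ _).trans ?_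
    have h3 : ∀ q ∈ cone X e.1 e.2 ×ˢ cone X e.1 e.2,
        |if dt q.1 q.2 = p ∧ dv p r y (co e q.1) then u q.1 * v q.2 else 0| ≤
        if dt q.1 q.2 = p ∧ dv p r y (co e q.1) then 1 else 0 := by
      intro q _
      split_ifs
      · exact tri_mul (hu _) (hv _)
      · simp
    refine (sum_le_sum h3).trans ?_
    rw [sum_boole]
    exact_mod_cast card_pairs h11 hK hκ hQ hX he hC₀ hB hp r hy
  calc |((p : ℝ) + 1) / (2 * Q)| * _ ≤ 2 * B := mul_le_mul h1 h2 (abs_nonneg _) (by norm_num)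

/-- average of the tree functions -/
theorem Z0_avg (h6 : S_PTS) (h7 : S_AVG) (h11 : S_DTB) {u v : Gi → ℝ}
    (hu : ∀ z, u z = 0 ∨ u z = 1 ∨ u z = -1)
    (hv : ∀ z, v z = 0 ∨ v z = 1 ∨ v z = -1) {K : ℕ} {κ : ℝ} {Q : ℕ} {X : ℝ} (hK : 1 ≤ K)
    (hκ : 0 < κ) (hQ : (K : ℝ) / κ < Q) (hX : 2 * (K * Q : ℝ) ≤ X) {e : Gi × Gi}
    (he : e ∈ good K κ Q X) {p : ℕ} (hp : p ∈ PQ Q) (r : ℤ) :
    (∑ y ∈ SL p, Z0 Q p r (TT (lb u v) X e) y) / ((SL p).card : ℝ) =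
      1 / (2 * Q) * ∑ z ∈ cone X e.1 e.2, ∑ w ∈ cone X e.1 e.2,
        if dt z w = p then u z * v w else 0 := by
  have hK0 : (0 : ℝ) < K := by exact_mod_cast hK
  have hK1 : (1 : ℝ) ≤ K := by exact_mod_cast hK
  have hQ0 : (0 : ℝ) < Q := lt_trans (div_pos hK0 hκ) hQ
  have hQ1 : 1 ≤ Q := by exact_mod_cast hQ0
  have hQ1' : (1 : ℝ) ≤ Q := by exact_mod_cast hQ1
  have hKQ : (0 : ℝ) < K * Q := by positivity
  have hY : 2 ≤ X / (K * Q) := by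
    rw [le_div_iff₀ hKQ]
    exact hX
  have hYX : X / (K * Q) ≤ X := by
    have hX0 : 0 ≤ X := le_trans (by positivity) hX
    exact div_le_self hX0 (by nlinarith)
  have hp1 : (0 : ℝ) < (p : ℝ) + 1 := by positivity
  have h1 : ∀ y ∈ SL p, Z0 Q p r (TT (lb u v) X e) y = ((p : ℝ) + 1) / (2 * Q) *
      ∑ z ∈ cone X e.1 e.2, ∑ w ∈ cone X e.1 e.2,
        (if dt z w = p then u z * v w else 0) * (if dv p r y (co e z) then 1 else 0) := by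
    intro y _
    rw [Z0_eq h6 hu hv hY hYX (good_edge he).1 Q p r y]
    congr 1
    refine sum_congr rfl fun z _ => sum_congr rfl fun w _ => ?_
    by_cases ha : dt z w = p <;> by_cases hb : dv p r y (co e z) <;> simp [ha, hb]
  rw [sum_congr rfl h1, ← mul_sum, mul_div_assoc]
  have h2 : (∑ y ∈ SL p, ∑ z ∈ cone X e.1 e.2, ∑ w ∈ cone X e.1 e.2,
        (if dt z w = p then u z * v w else 0) * (if dv p r y (co e z) then (1 : ℝ) else 0)) /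
        ((SL p).card : ℝ) = ∑ z ∈ cone X e.1 e.2, ∑ w ∈ cone X e.1 e.2,
        (if dt z w = p then u z * v w else 0) * (1 / ((p : ℝ) + 1)) := by
    rw [sum_comm, sum_div]
    refine sum_congr rfl fun z hz => ?_
    rw [sum_comm, sum_div]
    refine sum_congr rfl fun w _ => ?_
    rw [← mul_sum, mul_div_assoc]
    congr 1
    exact h7 p r (co e z) (PQ_mem hp).2.2.1 (fun h => co_lt h11 hK hκ hQ hX he hz hp h.1)
  rw [h2]
  simp only [← sum_mul]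
  field_simp

/-- the truncated functions -/
noncomputable def ZZ (B Q p : ℕ) (r : ℤ) (T : Tr Lb) (y : ℕ × ℕ × ℕ × ℕ) : ℝ :=
  if |Z0 Q p r T y| ≤ 2 * B then Z0 Q p r T y else 0

theorem ZZ_le (B Q p : ℕ) (r : ℤ) (T : Tr Lb) (y : ℕ × ℕ × ℕ × ℕ) : |ZZ B Q p r T y| ≤ 2 * B := by
  unfold ZZ
  split_ifs with h
  · exact h
  · simp

end Pool.Agent.W540.EC
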