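import Pool.Agent.W78.EC.Defs2

/-!
Project EC, assembly, part 1: coordinates with respect to an edge and the tree functions.
-/

set_option autoImplicit false

namespace Pool.Agent.W540.EC

open Finset Filter
open Pool.Agent.H376R2.MR
open Pool.Agent.W78.GA
open Pool.Agent.W78.EC

theorem hD : (0 : ℤ) ^ 2 < 4 * 1 := by norm_num

/-- coordinates with respect to an edge -/
def co (e : Gi × Gi) (z : Gi) : ℕ × ℕ := ((dt z e.2).toNat, (dt e.1 z).toNat)

theorem comb_re (a b : Gi) (x y : ℕ) : ((x : Gi) * a + (y : Gi) * b).re = x * a.re + y * b.re := by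
  simp [QuadraticAlgebra.re_mul, QuadraticAlgebra.re_natCast, QuadraticAlgebra.im_natCast]

theorem comb_im (a b : Gi) (x y : ℕ) : ((x : Gi) * a + (y : Gi) * b).im = x * a.im + y * b.im := by
  simp [QuadraticAlgebra.im_mul, QuadraticAlgebra.re_natCast, QuadraticAlgebra.im_natCast]

theorem co_comb {e : Gi × Gi} (he : dt e.1 e.2 = 1) (x : ℕ × ℕ) :
    co e ((x.1 : Gi) * e.1 + (x.2 : Gi) * e.2) = x := by
  have h1 : dt ((x.1 : Gi) * e.1 + (x.2 : Gi) * e.2) e.2 = x.1 := by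
    unfold dt at he ⊢
    rw [comb_re, comb_im]
    linear_combination (x.1 : ℤ) * he
  have h2 : dt e.1 ((x.1 : Gi) * e.1 + (x.2 : Gi) * e.2) = x.2 := by
    unfold dt at he ⊢
    rw [comb_re, comb_im]
    linear_combination (x.2 : ℤ) * he
  unfold co
  rw [h1, h2]
  simp

theorem mem_cone {X : ℝ} {a b z : Gi} : z ∈ cone X a b ↔ z ∈ pball 0 1 X ∧ 0 < dt a z ∧ 0 < dt z b := by
  unfold cone
  rw [mem_filter]

theorem co_cast {X : ℝ} {e : Gi × Gi} {z : Gi} (hz : z ∈ cone X e.1 e.2) :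
    ((co e z).1 : ℤ) = dt z e.2 ∧ ((co e z).2 : ℤ) = dt e.1 z := by
  rw [mem_cone] at hz
  unfold co
  exact ⟨Int.toNat_of_nonneg hz.2.2.le, Int.toNat_of_nonneg hz.2.1.le⟩

theorem cd_co {X : ℝ} {e : Gi × Gi} (he : dt e.1 e.2 = 1) {v w : Gi} (hv : v ∈ cone X e.1 e.2)
    (hw : w ∈ cone X e.1 e.2) : cd (co e v) (co e w) = dt v w := by
  unfold cd
  rw [(co_cast hv).1, (co_cast hv).2, (co_cast hw).1, (co_cast hw).2]
  have : dt v w = dt v w * dt e.1 e.2 := by rw [he, mul_one]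
  rw [this]
  unfold dt
  ring

theorem re_im_co {X : ℝ} {e : Gi × Gi} (he : dt e.1 e.2 = 1) {v : Gi} (hv : v ∈ cone X e.1 e.2) :
    v.re = (co e v).1 * e.1.re + (co e v).2 * e.2.re ∧
      v.im = (co e v).1 * e.1.im + (co e v).2 * e.2.im := by
  rw [(co_cast hv).1, (co_cast hv).2]
  unfold dt at he ⊢
  constructor
  · linear_combination (-v.re) * he
  · linear_combination (-v.im) * he

theorem co_inj {X : ℝ} {e : Gi × Gi} (he : dt e.1 e.2 = 1) {v w : Gi} (hv : v ∈ cone X e.1 e.2)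
    (hw : w ∈ cone X e.1 e.2) (h : co e v = co e w) : v = w := by
  obtain ⟨a1, a2⟩ := re_im_co he hv
  obtain ⟨b1, b2⟩ := re_im_co he hw
  rw [h] at a1 a2
  exact QuadraticAlgebra.ext (a1.trans b1.symm) (a2.trans b2.symm)

theorem rs_mod {p : ℕ} (hp : 0 < p) (x : ℤ) : (p : ℤ) ∣ (rs p x : ℤ) - x := by
  unfold rs
  rw [Int.toNat_of_nonneg (Int.emod_nonneg _ (by omega))]
  have := Int.emod_add_mul_ediv x p
  exact ⟨-(x / p), by linarith⟩

theorem rs_lt {p : ℕ} (hp : 0 < p) (x : ℤ) : rs p x < p := by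
  unfold rs
  have h1 := Int.emod_lt_of_pos x (show (0 : ℤ) < p by omega)
  have h2 := Int.emod_nonneg x (show (p : ℤ) ≠ 0 by omega)
  omega

/-- divisibility condition for the actual residues -/
theorem dv_res {X : ℝ} {e : Gi × Gi} (he : dt e.1 e.2 = 1) {p : ℕ} (hp : 0 < p) (r : ℤ) {v : Gi}
    (hv : v ∈ cone X e.1 e.2) : dv p r (res p e) (co e v) ↔ lat p r v := by
  obtain ⟨a1, a2⟩ := re_im_co he hv
  unfold dv lat res
  have h1 := rs_mod hp e.1.re
  have h2 := rs_mod hp e.1.im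
  have h3 := rs_mod hp e.2.re
  have h4 := rs_mod hp e.2.im
  simp only
  rw [a1, a2]
  generalize ((co e v).1 : ℤ) = x at *
  generalize ((co e v).2 : ℤ) = y at *
  have hdiff : (p : ℤ) ∣ (x * ((rs p e.1.re : ℤ) + r * (rs p e.1.im : ℤ)) +
      y * ((rs p e.2.re : ℤ) + r * (rs p e.2.im : ℤ))) -
      (x * e.1.re + y * e.2.re + r * (x * e.1.im + y * e.2.im)) := by
    have e1 : (x * ((rs p e.1.re : ℤ) + r * (rs p e.1.im : ℤ)) +
      y * ((rs p e.2.re : ℤ) + r * (rs p e.2.im : ℤ))) -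
      (x * e.1.re + y * e.2.re + r * (x * e.1.im + y * e.2.im)) =
      x * ((rs p e.1.re : ℤ) - e.1.re) + x * r * ((rs p e.1.im : ℤ) - e.1.im) +
      y * ((rs p e.2.re : ℤ) - e.2.re) + y * r * ((rs p e.2.im : ℤ) - e.2.im) := by ring
    rw [e1]
    exact dvd_add (dvd_add (dvd_add (h1.mul_left _) (h2.mul_left _)) (h3.mul_left _))
      (h4.mul_left _)
  exact (Int.dvd_iff_dvd_of_dvd_sub hdiff)

theorem res_mem {e : Gi × Gi} (he : dt e.1 e.2 = 1) {p : ℕ} (hp : 0 < p) : res p e ∈ SL p := by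
  unfold SL res
  rw [mem_filter]
  refine ⟨?_, ?_⟩
  · simp only [mem_product, mem_range]
    exact ⟨rs_lt hp _, rs_lt hp _, rs_lt hp _, rs_lt hp _⟩
  · simp only
    obtain ⟨a, ha⟩ := rs_mod hp e.1.re
    obtain ⟨b, hb⟩ := rs_mod hp e.1.im
    obtain ⟨c, hc⟩ := rs_mod hp e.2.re
    obtain ⟨d, hd⟩ := rs_mod hp e.2.im
    have ha' : (rs p e.1.re : ℤ) = e.1.re + p * a := by linarith
    have hb' : (rs p e.1.im : ℤ) = e.1.im + p * b := by linarith
    have hc' : (rs p e.2.re : ℤ) = e.2.re + p * c := by linarith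
    have hd' : (rs p e.2.im : ℤ) = e.2.im + p * d := by linarith
    rw [ha', hb', hc', hd']
    unfold dt at he
    refine ⟨e.1.re * d + a * e.2.im + p * a * d - e.1.im * c - b * e.2.re - p * b * c, ?_⟩
    linear_combination he

/-- values of the labels -/
abbrev Lb := SignType × SignType

/-- the function on trees, before the truncation -/
noncomputable def Z0 (Q p : ℕ) (r : ℤ) (T : Tr Lb) (y : ℕ × ℕ × ℕ × ℕ) : ℝ :=
  ((p : ℝ) + 1) / (2 * Q) * ((pts T (1, 0) (0, 1)).map (fun q1 =>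
    ((pts T (1, 0) (0, 1)).map (fun q2 => if cd q1.1 q2.1 = p ∧ dv p r y q1.1 then
      ((q1.2.1 : SignType) : ℝ) * ((q2.2.2 : SignType) : ℝ) else 0)).sum)).sum

/-- labels of two functions with values in `{0, 1, -1}` -/
noncomputable def lb (u v : Gi → ℝ) (z : Gi) : Lb := (SignType.sign (u z), SignType.sign (v z))

theorem sign_cast {x : ℝ} (h : x = 0 ∨ x = 1 ∨ x = -1) : ((SignType.sign x : SignType) : ℝ) = x := by
  rcases h with h | h | h
  · rw [h]; simp
  · rw [h]; simp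
  · rw [h]; simp

/-- the double sum over the cone -/
theorem Z0_eq (h6 : S_PTS) {u v : Gi → ℝ} (hu : ∀ z, u z = 0 ∨ u z = 1 ∨ u z = -1)
    (hv : ∀ z, v z = 0 ∨ v z = 1 ∨ v z = -1) {Y X : ℝ} (hY : 2 ≤ Y) (hYX : Y ≤ X) {e : Gi × Gi}
    (he : e ∈ edge 0 1 Y) (Q p : ℕ) (r : ℤ) (y : ℕ × ℕ × ℕ × ℕ) :
    Z0 Q p r (TT (lb u v) X e) y = ((p : ℝ) + 1) / (2 * Q) *
      ∑ z ∈ cone X e.1 e.2, ∑ w ∈ cone X e.1 e.2,
        if dt z w = p ∧ dv p r y (co e z) then u z * v w else 0 := by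
  have hdt : dt e.1 e.2 = 1 := by
    unfold edge at he
    rw [mem_filter] at he
    exact he.2.1
  unfold Z0
  congr 1
  -- the inner sum
  have h1 : ∀ q1 : (ℕ × ℕ) × Lb, ((pts (TT (lb u v) X e) (1, 0) (0, 1)).map (fun q2 =>
      if cd q1.1 q2.1 = p ∧ dv p r y q1.1 then
        ((q1.2.1 : SignType) : ℝ) * ((q2.2.2 : SignType) : ℝ) else 0)).sum =
      ∑ w ∈ cone X e.1 e.2, if cd q1.1 (co e w) = p ∧ dv p r y q1.1 then
        ((q1.2.1 : SignType) : ℝ) * v w else 0 := by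
    intro q1
    refine h6 Lb (lb u v) Y X e (fun x l => if cd q1.1 x = p ∧ dv p r y q1.1 then
      ((q1.2.1 : SignType) : ℝ) * ((l.2 : SignType) : ℝ) else 0) _ hY hYX he ?_
    intro x
    rw [co_comb hdt]
    simp only [lb]
    rw [sign_cast (hv _)]
  have h2 := h6 Lb (lb u v) Y X e (fun x l => ∑ w ∈ cone X e.1 e.2,
    if cd x (co e w) = p ∧ dv p r y x then ((l.1 : SignType) : ℝ) * v w else 0)
    (fun z => ∑ w ∈ cone X e.1 e.2,
      if cd (co e z) (co e w) = p ∧ dv p r y (co e z) then u z * v w else 0) hY hYX he (by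
      intro x
      rw [co_comb hdt]
      simp only [lb]
      rw [sign_cast (hu _)])
  simp only [h1]
  rw [h2]
  refine sum_congr rfl fun z hz => sum_congr rfl fun w hw => ?_
  rw [cd_co hdt hz hw]

end Pool.Agent.W540.EC
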