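import Pool.Agent.W540.EC.A2

/-!
Project EC, assembly, part 3: the estimate for fixed `X`.
-/

set_option autoImplicit false

namespace Pool.Agent.W540.EC

open Finset Filter
open Pool.Agent.H376R2.MR
open Pool.Agent.W78.GA
open Pool.Agent.W78.EC

/-- a prime `1 mod 4` is the norm of an element -/
theorem exists_pi {p : ℕ} (hp : p.Prime) (h4 : p % 4 = 1) :
    ∃ (π : Gi) (r : ℤ), nm π = p ∧ lat p r π ∧ (p : ℤ) ∣ r ^ 2 + 1 := by
  have := Fact.mk hp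
  obtain ⟨a, b, hab⟩ := Nat.Prime.sq_add_sq (p := p) (by omega)
  have hb : ¬ p ∣ b := by
    intro hb
    have h1 : p ∣ a ^ 2 := by
      have h2 : p ∣ a ^ 2 + b ^ 2 := by rw [hab]
      exact (Nat.dvd_add_left (hb.pow two_ne_zero)).1 h2
    have h3 : p ∣ a := hp.dvd_of_dvd_pow h1
    obtain ⟨x, hx⟩ := h3
    obtain ⟨y, hy⟩ := hb
    have h5 : p ^ 2 ∣ p := ⟨x ^ 2 + y ^ 2, by
      nth_rewrite 1 [← hab]
      rw [hx, hy]
      ring⟩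
    have h6 := Nat.le_of_dvd hp.pos h5
    have h7 := hp.two_le
    nlinarith
  have hc : IsCoprime (b : ℤ) (p : ℤ) :=
    Nat.isCoprime_iff_coprime.2 ((Nat.Prime.coprime_iff_not_dvd hp).2 hb).symm
  obtain ⟨x, y, hxy⟩ := hc
  have hab' : (a : ℤ) ^ 2 + (b : ℤ) ^ 2 = p := by exact_mod_cast hab
  refine ⟨⟨a, b⟩, -a * x, ?_, ?_, ?_⟩
  · have h := nm_cast hD (⟨a, b⟩ : Gi)
    have h2 : (nm (⟨a, b⟩ : Gi) : ℤ) = p := by
      rw [h]
      simp only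
      linear_combination hab'
    exact_mod_cast h2
  · refine ⟨a * y, ?_⟩
    simp only
    linear_combination (-(a : ℤ)) * hxy
  · refine ⟨x ^ 2 + (2 * x * b * y + y ^ 2 * p), ?_⟩
    linear_combination (-(x * b + y * p + 1)) * hxy + x ^ 2 * hab'

/-- the powers of the Liouville function in a window -/
noncomputable def uu (j : ℕ) (s₁ s₂ X : ℝ) (z : Gi) : ℝ :=
  if s₁ * X < (nm z : ℝ) ∧ (nm z : ℝ) ≤ s₂ * X then (gl z : ℝ) ^ j else 0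

theorem gl_tri (z : Gi) (j : ℕ) : (gl z : ℝ) ^ j = 1 ∨ (gl z : ℝ) ^ j = -1 := by
  rcases gl_eq z with h | h
  · left; rw [h]; simp
  · rw [h]
    push_cast
    exact neg_one_pow_eq_or ℝ j

theorem uu_tri (j : ℕ) (s₁ s₂ X : ℝ) (z : Gi) :
    uu j s₁ s₂ X z = 0 ∨ uu j s₁ s₂ X z = 1 ∨ uu j s₁ s₂ X z = -1 := by
  unfold uu
  split_ifs
  · exact Or.inr (gl_tri z j)
  · exact Or.inl rfl

theorem uu_mul {p : ℕ} (hp : p.Prime) {π : Gi} (hπ : nm π = p) (j : ℕ) {s₁ s₂ X : ℝ}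
    (h0 : 0 ≤ s₁ * X) (z : Gi) : uu j s₁ s₂ X (π * z) =
      (-1) ^ j * if s₁ * (X / p) < (nm z : ℝ) ∧ (nm z : ℝ) ≤ s₂ * (X / p) then (gl z : ℝ) ^ j else 0 := by
  have hp0 : (0 : ℝ) < p := by exact_mod_cast hp.pos
  have h1 : (nm (π * z) : ℝ) = p * nm z := by
    rw [nm_mul, hπ]
    push_cast
    ring
  have h2 : s₁ * X < (nm (π * z) : ℝ) ↔ s₁ * (X / p) < (nm z : ℝ) := by
    rw [h1, ← mul_div_assoc, div_lt_iff₀ hp0, mul_comm (p : ℝ)]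
  have h3 : (nm (π * z) : ℝ) ≤ s₂ * X ↔ (nm z : ℝ) ≤ s₂ * (X / p) := by
    rw [h1, ← mul_div_assoc, le_div_iff₀ hp0, mul_comm (p : ℝ)]
  unfold uu
  by_cases hc : s₁ * (X / p) < (nm z : ℝ) ∧ (nm z : ℝ) ≤ s₂ * (X / p)
  · rw [if_pos (by rw [h2, h3]; exact hc), if_pos hc]
    have hz : z ≠ 0 := by
      rintro rfl
      have := hc.1
      rw [nm_zero] at this
      have h4 : 0 ≤ s₁ * (X / p) := by
        rw [← mul_div_assoc]
        positivity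
      push_cast at this
      linarith
    have hπ0 : π ≠ 0 := by
      rintro rfl
      rw [nm_zero] at hπ
      exact hp.ne_zero hπ.symm
    have h5 : gl (π * z) = - gl z := by
      rw [gl_mul hD hπ0 hz]
      have : gl π = -1 := by
        unfold gl
        rw [hπ]
        exact lam_prime hp
      rw [this]
      ring
    rw [h5]
    push_cast
    rw [neg_pow]
  · rw [if_neg (by rw [h2, h3]; exact hc), if_neg hc, mul_zero]

theorem AA_eq {p : ℕ} (hp : p.Prime) {π : Gi} (hπ : nm π = p) (j : ℕ) {s₁ s₂ s₃ s₄ X : ℝ}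
    (h0 : 0 ≤ s₁ * X) (h0' : 0 ≤ s₃ * X) : AA j s₁ s₂ s₃ s₄ (X / p) = (-1) ^ (j + 1) *
      ∑ e ∈ dedge 0 1 (X / p), uu j s₁ s₂ X (π * e.1) * uu 1 s₃ s₄ X (π * e.2) := by
  unfold AA
  rw [sum_filter, mul_sum]
  refine sum_congr rfl fun e _ => ?_
  rw [uu_mul hp hπ j h0, uu_mul hp hπ 1 h0']
  have hsq : ((-1 : ℝ)) ^ (j + 1) * (-1) ^ j * (-1) ^ 1 = 1 := by
    rw [← pow_add, ← pow_add]
    exact Even.neg_one_pow ⟨j + 1, by ring⟩
  by_cases h1 : s₁ * (X / p) < (nm e.1 : ℝ) ∧ (nm e.1 : ℝ) ≤ s₂ * (X / p) <;>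
  by_cases h2 : s₃ * (X / p) < (nm e.2 : ℝ) ∧ (nm e.2 : ℝ) ≤ s₄ * (X / p)
  · rw [if_pos ⟨h1.1, h1.2, h2.1, h2.2⟩, if_pos h1, if_pos h2, pow_one (gl e.2 : ℝ)]
    linear_combination (-((gl e.1 : ℝ) ^ j * gl e.2)) * hsq
  · rw [if_neg (fun h => h2 ⟨h.2.2.1, h.2.2.2⟩), if_neg h2]
    simp
  · rw [if_neg (fun h => h1 ⟨h.1, h.2.1⟩), if_neg h1]
    simp
  · rw [if_neg (fun h => h1 ⟨h.1, h.2.1⟩), if_neg h1]
    simp

open scoped Classical in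
theorem AA_split {p : ℕ} (hp : p.Prime) {π : Gi} (hπ : nm π = p) (j : ℕ)
    {s s₁ s₂ s₃ s₄ X : ℝ} (h0 : 0 ≤ s₁ * X) (h0' : 0 ≤ s₃ * X) (hs1 : s * X ≤ s₁ * X)
    (hs3 : s * X ≤ s₃ * X) {K : ℕ} {κ : ℝ} {Q : ℕ} {δ : ℝ}
    (hL : (((dedge 0 1 (X / p)).filter (fun e => s * (X / p) < (nm e.1 : ℝ) ∧
      s * (X / p) < (nm e.2 : ℝ) ∧ ¬ InG K κ Q X π e)).card : ℝ) ≤ δ) :
    |(-1) ^ (j + 1) * AA j s₁ s₂ s₃ s₄ (X / p) -
      ∑ e ∈ (dedge 0 1 (X / p)).filter (InG K κ Q X π),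
        uu j s₁ s₂ X (π * e.1) * uu 1 s₃ s₄ X (π * e.2)| ≤ δ := by
  have hp0 : (0 : ℝ) < p := by exact_mod_cast hp.pos
  rw [AA_eq hp hπ j h0 h0', ← mul_assoc, ← pow_add, Even.neg_one_pow ⟨j + 1, rfl⟩, one_mul,
    ← sum_filter_add_sum_filter_not _ (InG K κ Q X π), add_sub_cancel_left]
  refine (abs_sum_le_sum_abs _ _).trans (le_trans ?_ hL)
  have h1 : ∀ e ∈ (dedge 0 1 (X / p)).filter (fun e => ¬ InG K κ Q X π e),
      |uu j s₁ s₂ X (π * e.1) * uu 1 s₃ s₄ X (π * e.2)| ≤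
      if s * (X / p) < (nm e.1 : ℝ) ∧ s * (X / p) < (nm e.2 : ℝ) then (1 : ℝ) else 0 := by
    intro e _
    split_ifs with hc
    · exact tri_mul (uu_tri _ _ _ _ _) (uu_tri _ _ _ _ _)
    · rw [uu_mul hp hπ j h0, uu_mul hp hπ 1 h0']
      have ha : s * (X / p) ≤ s₁ * (X / p) := by
        rw [← mul_div_assoc, ← mul_div_assoc]
        exact div_le_div_of_nonneg_right hs1 hp0.le
      have hb : s * (X / p) ≤ s₃ * (X / p) := by
        rw [← mul_div_assoc, ← mul_div_assoc]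
        exact div_le_div_of_nonneg_right hs3 hp0.le
      by_cases h2 : s₁ * (X / p) < (nm e.1 : ℝ) ∧ (nm e.1 : ℝ) ≤ s₂ * (X / p)
      · have h3 : ¬ (s₃ * (X / p) < (nm e.2 : ℝ) ∧ (nm e.2 : ℝ) ≤ s₄ * (X / p)) := by
          intro h3
          exact hc ⟨by linarith [h2.1], by linarith [h3.1]⟩
        rw [if_neg h3]
        simp
      · rw [if_neg h2]
        simp
  refine (sum_le_sum h1).trans ?_
  rw [sum_boole, filter_filter]
  refine le_of_eq ?_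
  congr 2
  refine filter_congr fun e _ => ?_
  tauto

end Pool.Agent.W540.EC
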