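import Pool.Agent.W540.EC.A4

/-!
Project EC, assembly, part 5: the logarithmic average is small.
-/

set_option autoImplicit false

namespace Pool.Agent.W540.EC

open Finset Filter
open Pool.Agent.H376R2.MR
open Pool.Agent.W78.GA
open Pool.Agent.W78.EC

theorem harm_le (N : ℕ) : ∑ X ∈ Icc 1 N, 1 / (X : ℝ) ≤ 1 + Real.log N := by
  have h := harmonic_le_one_add_log N
  rw [harmonic_eq_sum_Icc] at h
  push_cast at h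
  simpa only [one_div] using h

/-- the weighted sum over the primes -/
noncomputable def SX (j : ℕ) (s₁ s₂ s₃ s₄ : ℝ) (Q : ℕ) (X : ℝ) : ℝ :=
  ∑ p ∈ PQ Q, Real.log p * ((p : ℝ) + 1) * AA j s₁ s₂ s₃ s₄ (X / p)

/-- the averaging over the primes -/
theorem avg_primes {j : ℕ} {s₁ s₂ s₃ s₄ C : ℝ} (hC0 : 0 ≤ C) {Q Q₂ N : ℕ} (hQ : 1 ≤ Q)
    (hQ2 : Q ≤ Q₂) (hN : 1 ≤ N)
    (hC : ∀ p N : ℕ, 1 ≤ p → 1 ≤ N →
      |∑ X ∈ Icc 1 N, (p : ℝ) / (X : ℝ) ^ 2 * AA j s₁ s₂ s₃ s₄ ((X : ℝ) / p) -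
        ∑ X ∈ Icc 1 N, 1 / (X : ℝ) ^ 2 * AA j s₁ s₂ s₃ s₄ X| ≤ C * (1 + Real.log p)) :
    (∑ p ∈ PQ Q, Real.log p * (((p : ℝ) + 1) / p)) *
      |∑ X ∈ Icc 1 N, 1 / (X : ℝ) ^ 2 * AA j s₁ s₂ s₃ s₄ X| ≤
    (∑ p ∈ PQ Q, Real.log p * (((p : ℝ) + 1) / p)) * (C * (1 + Real.log (2 * Q₂))) +
      |∑ X ∈ Icc 1 N, 1 / (X : ℝ) ^ 2 * SX j s₁ s₂ s₃ s₄ Q X| := by
  set T := ∑ X ∈ Icc 1 N, 1 / (X : ℝ) ^ 2 * AA j s₁ s₂ s₃ s₄ X with hT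
  set θ : ℕ → ℝ := fun p => Real.log p * (((p : ℝ) + 1) / p) with hθ
  set Tp : ℕ → ℝ := fun p => ∑ X ∈ Icc 1 N, (p : ℝ) / (X : ℝ) ^ 2 *
    AA j s₁ s₂ s₃ s₄ ((X : ℝ) / p) with hTp
  have hθ0 : ∀ p ∈ PQ Q, 0 ≤ θ p := fun p hp =>
    mul_nonneg (log_nonneg_PQ hp) (by positivity)
  have h1 : ∑ X ∈ Icc 1 N, 1 / (X : ℝ) ^ 2 * SX j s₁ s₂ s₃ s₄ Q X = ∑ p ∈ PQ Q, θ p * Tp p := by
    unfold SX
    simp only [hTp, mul_sum]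
    rw [sum_comm]
    refine sum_congr rfl fun p hp => sum_congr rfl fun X _ => ?_
    have hp0 : (p : ℝ) ≠ 0 := by exact_mod_cast (PQ_mem hp).2.2.1.ne_zero
    simp only [hθ]
    field_simp
  have h2 : (∑ p ∈ PQ Q, θ p) * T = ∑ p ∈ PQ Q, θ p * (T - Tp p) +
      ∑ X ∈ Icc 1 N, 1 / (X : ℝ) ^ 2 * SX j s₁ s₂ s₃ s₄ Q X := by
    rw [h1, ← sum_add_distrib, sum_mul]
    refine sum_congr rfl fun p _ => ?_
    ring
  have h3 : |∑ p ∈ PQ Q, θ p * (T - Tp p)| ≤ (∑ p ∈ PQ Q, θ p) * (C * (1 + Real.log (2 * Q₂))) := by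
    rw [sum_mul]
    refine (abs_sum_le_sum_abs _ _).trans (sum_le_sum fun p hp => ?_)
    rw [abs_mul, abs_of_nonneg (hθ0 p hp)]
    refine mul_le_mul_of_nonneg_left ?_ (hθ0 p hp)
    have hp1 := (PQ_mem hp).2.2.1.one_lt.le
    have h4 := hC p N hp1 hN
    rw [abs_sub_comm] at h4
    refine h4.trans (mul_le_mul_of_nonneg_left ?_ hC0)
    have h5 : (p : ℝ) ≤ 2 * Q₂ := by
      have h6 : p ≤ 2 * Q₂ := by
        have := (PQ_mem hp).2.1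
        omega
      exact_mod_cast h6
    have h7 : (0 : ℝ) < p := by exact_mod_cast hp1
    linarith [Real.log_le_log h7 h5]
  have h4 : (∑ p ∈ PQ Q, θ p) * |T| = |(∑ p ∈ PQ Q, θ p) * T| := by
    rw [abs_mul, abs_of_nonneg (sum_nonneg hθ0)]
  rw [h4, h2]
  exact (abs_add_le _ _).trans (by linarith)

/-- splitting of the sum over `X` -/
theorem sum_split (f D G : ℕ → ℝ) {X₀ X₁ N : ℕ} {a b Λ : ℝ} (hG : ∀ X, |f X| ≤ G X)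
    (hlarge : ∀ X, X₁ < X → |f X| ≤ a * D X + b * X) (hD0 : ∀ X, 0 ≤ D X) (ha : 0 ≤ a) (hb : 0 ≤ b)
    (h01 : X₀ ≤ X₁) (hζ : ∑ X ∈ Ioc X₀ N, 1 / (X : ℝ) ^ 2 * D X ≤ Λ) :
    |∑ X ∈ Icc 1 N, 1 / (X : ℝ) ^ 2 * f X| ≤ ∑ X ∈ Icc 1 X₁, 1 / (X : ℝ) ^ 2 * G X + a * Λ +
      b * (1 + Real.log N) := by
  have hG0 : ∀ X, 0 ≤ G X := fun X => (abs_nonneg _).trans (hG X)
  have hterm : ∀ X ∈ Icc 1 N, |1 / (X : ℝ) ^ 2 * f X| ≤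
      (if X ≤ X₁ then 1 / (X : ℝ) ^ 2 * G X else 0) +
      (if X₁ < X then a * (1 / (X : ℝ) ^ 2 * D X) else 0) + b * (1 / (X : ℝ)) := by
    intro X hX
    have hX1 : 1 ≤ X := (mem_Icc.1 hX).1
    have hXR : (0 : ℝ) < X := by exact_mod_cast hX1
    have hX2 : (0 : ℝ) ≤ 1 / (X : ℝ) ^ 2 := by positivity
    have hnn : 0 ≤ b * (1 / (X : ℝ)) := by positivity
    rw [abs_mul, abs_of_nonneg hX2]
    by_cases hc1 : X ≤ X₁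
    · rw [if_pos hc1, if_neg (by omega)]
      have h' := mul_le_mul_of_nonneg_left (hG X) hX2
      linarith
    · rw [if_neg hc1, if_pos (by omega)]
      have h' := mul_le_mul_of_nonneg_left (hlarge X (by omega)) hX2
      have h'' : 1 / (X : ℝ) ^ 2 * (a * D X + b * X) = 0 + a * (1 / (X : ℝ) ^ 2 * D X) +
          b * (1 / (X : ℝ)) := by
        field_simp
        ring
      linarith
  refine (abs_sum_le_sum_abs _ _).trans ((sum_le_sum hterm).trans ?_)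
  rw [sum_add_distrib, sum_add_distrib, ← mul_sum]
  have a1 : ∑ X ∈ Icc 1 N, (if X ≤ X₁ then 1 / (X : ℝ) ^ 2 * G X else 0) ≤
      ∑ X ∈ Icc 1 X₁, 1 / (X : ℝ) ^ 2 * G X := by
    rw [← sum_filter]
    refine sum_le_sum_of_subset_of_nonneg ?_ ?_
    · intro X hX
      rw [mem_filter, mem_Icc] at hX
      exact mem_Icc.2 ⟨hX.1.1, hX.2⟩
    · intro X _ _
      exact mul_nonneg (by positivity) (hG0 X)
  have a2 : ∑ X ∈ Icc 1 N, (if X₁ < X then a * (1 / (X : ℝ) ^ 2 * D X) else 0) ≤ a * Λ := by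
    rw [← sum_filter, ← mul_sum]
    refine mul_le_mul_of_nonneg_left (le_trans ?_ hζ) ha
    refine sum_le_sum_of_subset_of_nonneg ?_ ?_
    · intro X hX
      rw [mem_filter, mem_Icc] at hX
      exact mem_Ioc.2 ⟨by omega, hX.1.2⟩
    · intro X _ _
      exact mul_nonneg (by positivity) (hD0 X)
  have a3 : b * ∑ X ∈ Icc 1 N, 1 / (X : ℝ) ≤ b * (1 + Real.log N) :=
    mul_le_mul_of_nonneg_left (harm_le N) hb
  linarith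

theorem main_of (h1 : S_BT) (h2 : S_DCP) (h3 : S_DIL) (h4 : S_LOSS) (h5 : S_BIJ) (h6 : S_PTS)
    (h7 : S_AVG) (h8 : S_BDD) (h9 : S_PCNT) (_h10 : S_ECNT) (h11 : S_DTB) : S_MAIN := by
  classical
  intro j s₁ s₂ s₃ s₄ hs₁ hs₁₂ hs₂ hs₃ hs₃₄ hs₄ ε hε
  obtain ⟨c, _, hc, Qc, hQc⟩ := h9
  obtain ⟨C₁, hC₁⟩ := h3 j s₁ s₂ s₃ s₄ hs₁ hs₁₂ hs₂ hs₃ hs₃₄ hs₄
  set C := |C₁| with hCdef
  have hC0 : 0 ≤ C := abs_nonneg _
  have hC : ∀ p N : ℕ, 1 ≤ p → 1 ≤ N →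
      |∑ X ∈ Icc 1 N, (p : ℝ) / (X : ℝ) ^ 2 * AA j s₁ s₂ s₃ s₄ ((X : ℝ) / p) -
        ∑ X ∈ Icc 1 N, 1 / (X : ℝ) ^ 2 * AA j s₁ s₂ s₃ s₄ X| ≤ C * (1 + Real.log p) := by
    intro p N hp hN
    refine (hC₁ p N hp hN).trans (mul_le_mul_of_nonneg_right (le_abs_self _) ?_)
    have := Real.log_natCast_nonneg p
    linarith
  set s := min s₁ s₃ with hs
  have hs0 : 0 < s := lt_min hs₁ hs₃
  obtain ⟨K₀, hK₀⟩ := h4 s (ε / 32) hs0 (by positivity)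
  set K := max K₀ 1 with hKdef
  have hK : 1 ≤ K := le_max_right _ _
  obtain ⟨κ, hκ, hκ'⟩ := hK₀ K (le_max_left _ _)
  obtain ⟨QL, hQL⟩ := hκ' κ hκ le_rfl
  obtain ⟨B, hB⟩ := h8 ⌈(K : ℝ) / κ⌉₊
  obtain ⟨QB, hQB⟩ := h1 K κ s₁ s₃ s₄ (c * ε / 16) hK hκ hs₁ hs₃ hs₃₄ hs₄ (by positivity)
  set Q₁ := Qc + QL + QB + (⌊(K : ℝ) / κ⌋₊ + 1) with hQ₁
  obtain ⟨Q₂, X₀, N₀, hD⟩ := h2 Lb K (2 * B) (c * ε / 16) hK (by positivity) Q₁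
  -- thresholds
  have hXL : ∀ Q : ℕ, ∃ X₁ : ℝ, Q₁ ≤ Q → ∀ X : ℝ, X₁ ≤ X → ∀ p ∈ PQ Q, ∀ π : Gi, nm π = p →
    (((dedge 0 1 (X / p)).filter (fun e => s * (X / p) < (nm e.1 : ℝ) ∧ s * (X / p) < (nm e.2 : ℝ) ∧
      ¬ InG K κ Q X π e)).card : ℝ) ≤ ε / 32 * (X / p) := by
    intro Q
    by_cases hQ : Q₁ ≤ Q
    · obtain ⟨X₁, hX₁⟩ := hQL Q (by omega)
      exact ⟨X₁, fun _ => hX₁⟩
    · exact ⟨0, fun h => absurd h hQ⟩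
  have hXB : ∀ Q : ℕ, ∃ X₁ : ℝ, Q₁ ≤ Q → ∀ X : ℝ, X₁ ≤ X → ∀ α : Gi → ℝ,
    (∀ z, |α z| ≤ 1) → (∀ z, α z ≠ 0 → s₁ * X < (nm z : ℝ)) →
    |∑ e ∈ good K κ Q X, ∑ v ∈ cone X e.1 e.2, ∑ w ∈ cw X s₃ s₄ e.1 e.2,
      α v * gl w * th Q (dt v w)| ≤ c * ε / 16 * X * Q := by
    intro Q
    by_cases hQ : Q₁ ≤ Q
    · obtain ⟨X₁, hX₁⟩ := hQB Q (by omega)
      exact ⟨X₁, fun _ => hX₁⟩
    · exact ⟨0, fun h => absurd h hQ⟩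
  choose XL hXL' using hXL
  choose XB hXB' using hXB
  have hpi : ∀ p : ℕ, ∃ πr : Gi × ℤ, p.Prime → p % 4 = 1 →
      nm πr.1 = p ∧ lat p πr.2 πr.1 ∧ (p : ℤ) ∣ πr.2 ^ 2 + 1 := by
    intro p
    by_cases hp : p.Prime ∧ p % 4 = 1
    · obtain ⟨π, r, h⟩ := exists_pi hp.1 hp.2
      exact ⟨(π, r), fun _ _ => h⟩
    · exact ⟨(0, 0), fun ha hb => absurd ⟨ha, hb⟩ hp⟩
  choose πr hπr using hpi
  set X₁ := X₀ + ∑ Q ∈ Icc Q₁ Q₂, (⌈XL Q⌉₊ + ⌈XB Q⌉₊ + 2 * (K * Q)) with hX₁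
  have hX₁' : ∀ Q : ℕ, Q₁ ≤ Q → Q ≤ Q₂ → XL Q ≤ X₁ ∧ XB Q ≤ X₁ ∧ 2 * (K * Q : ℝ) ≤ X₁ := by
    intro Q ha hb
    have h : ⌈XL Q⌉₊ + ⌈XB Q⌉₊ + 2 * (K * Q) ≤ X₁ := by
      have := single_le_sum (f := fun Q => ⌈XL Q⌉₊ + ⌈XB Q⌉₊ + 2 * (K * Q))
        (fun _ _ => Nat.zero_le _) (mem_Icc.2 ⟨ha, hb⟩)
      omega
    have h' : ((⌈XL Q⌉₊ : ℝ) + ⌈XB Q⌉₊ + 2 * (K * Q)) ≤ X₁ := by exact_mod_cast h
    have e1 := Nat.le_ceil (XL Q)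
    have e2 := Nat.le_ceil (XB Q)
    have e3 : (0 : ℝ) ≤ ⌈XL Q⌉₊ := Nat.cast_nonneg _
    have e4 : (0 : ℝ) ≤ ⌈XB Q⌉₊ := Nat.cast_nonneg _
    have e5 : (0 : ℝ) ≤ 2 * (K * Q : ℝ) := by positivity
    exact ⟨by linarith, by linarith, by linarith⟩
  set M : ℝ := ∑ X ∈ Icc 1 X₁, 1 / (X : ℝ) ^ 2 *
    ∑ Q ∈ Icc Q₁ Q₂, |SX j s₁ s₂ s₃ s₄ Q X| with hM
  have hM0 : 0 ≤ M := sum_nonneg fun X _ => mul_nonneg (by positivity)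
    (sum_nonneg fun _ _ => abs_nonneg _)
  set Kst : ℝ := C * (1 + Real.log (2 * Q₂)) + M / c + ε / 8 with hKst
  refine ⟨max (max N₀ 1) ⌈Real.exp (Kst / (ε / 2))⌉₊, fun N hN => ?_⟩
  have hN0 : N₀ ≤ N := le_trans (le_trans (le_max_left _ _) (le_max_left _ _)) hN
  have hN1 : 1 ≤ N := le_trans (le_trans (le_max_right _ _) (le_max_left _ _)) hN
  have hNe : Kst / (ε / 2) ≤ Real.log N := by
    have hNR : (0 : ℝ) < N := by exact_mod_cast hN1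
    rw [Real.le_log_iff_exp_le hNR]
    have := le_trans (le_max_right _ _) hN
    exact (Nat.le_ceil _).trans (by exact_mod_cast this)
  have hlogN : 0 ≤ Real.log N := Real.log_natCast_nonneg N
  obtain ⟨Q, hQ1, hQ2, hζ⟩ := hD N hN0 (fun X => lb (uu j s₁ s₂ X) (uu 1 s₃ s₄ X))
  have hζ' := hζ (fun p => ZZ B Q p (πr p).2) (fun p T y => ZZ_le B Q p _ T y)
  have hQpos : 1 ≤ Q := by omega
  have hQR : (1 : ℝ) ≤ Q := by exact_mod_cast hQpos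
  have hKQ : (K : ℝ) / κ < Q := by
    have h := Nat.lt_floor_add_one ((K : ℝ) / κ)
    have h' : ⌊(K : ℝ) / κ⌋₊ + 1 ≤ Q := by omega
    have h'' : ((⌊(K : ℝ) / κ⌋₊ : ℝ) + 1) ≤ Q := by exact_mod_cast h'
    linarith
  have hΘ := (hQc Q (by omega)).2.2.1
  set Θ := ∑ p ∈ PQ Q, Real.log p with hΘdef
  set Θ' := ∑ p ∈ PQ Q, Real.log p * (((p : ℝ) + 1) / p) with hΘ'def
  have hΘ0 : 0 ≤ Θ := sum_nonneg fun p hp => log_nonneg_PQ hp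
  have hΘΘ' : Θ ≤ Θ' := by
    refine sum_le_sum fun p hp => ?_
    have hp0 : (0 : ℝ) < p := by exact_mod_cast (PQ_mem hp).2.2.1.pos
    refine le_mul_of_one_le_right (log_nonneg_PQ hp) ?_
    rw [le_div_iff₀ hp0]
    linarith
  set DX : ℕ → ℝ := fun X => ∑ e ∈ edge 0 1 ((X : ℝ) / (K * Q)), |∑ p ∈ PQ Q, Real.log p *
    (ZZ B Q p (πr p).2 (TT (lb (uu j s₁ s₂ X) (uu 1 s₃ s₄ X)) X e) (res p e) -
      av p (ZZ B Q p (πr p).2) (TT (lb (uu j s₁ s₂ X) (uu 1 s₃ s₄ X)) X e))| with hDX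
  have hDX0 : ∀ X, 0 ≤ DX X := fun X => sum_nonneg fun _ _ => abs_nonneg _
  have hζ'' : ∑ X ∈ Ioc X₀ N, 1 / (X : ℝ) ^ 2 * DX X ≤ c * ε / 16 * Real.log N := hζ'
  -- large X
  have hlarge : ∀ X : ℕ, X₁ < X → |SX j s₁ s₂ s₃ s₄ Q X| ≤
      2 * Q * DX X + (c * ε / 16 * X * Q + 2 * (ε / 32) * X * Θ) := by
    intro X hX
    obtain ⟨e1, e2, e3⟩ := hX₁' Q hQ1 hQ2
    have hXR : (X₁ : ℝ) ≤ X := by exact_mod_cast hX.le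
    exact per_X h5 h6 h7 h11 j (s := s) hs₁ hs₃ (min_le_left _ _) (min_le_right _ _) hK hκ hKQ
      (e3.trans hXR) (Nat.le_ceil _) hB (fun p => (πr p).1) (fun p => (πr p).2)
      (fun p hp => hπr p (PQ_mem hp).2.2.1 (PQ_mem hp).2.2.2)
      (hXB' Q hQ1 X (e2.trans hXR)) (by positivity) (hXL' Q hQ1 X (e1.trans hXR))
  -- the sum over X
  have hsum : |∑ X ∈ Icc 1 N, 1 / (X : ℝ) ^ 2 * SX j s₁ s₂ s₃ s₄ Q X| ≤
      M + 2 * Q * (c * ε / 16 * Real.log N) +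
        (c * ε / 16 * Q + 2 * (ε / 32) * Θ) * (1 + Real.log N) := by
    have h := sum_split (fun X => SX j s₁ s₂ s₃ s₄ Q X) DX
      (fun X => ∑ Q ∈ Icc Q₁ Q₂, |SX j s₁ s₂ s₃ s₄ Q X|) (X₀ := X₀) (X₁ := X₁) (N := N)
      (a := 2 * Q) (b := c * ε / 16 * Q + 2 * (ε / 32) * Θ) (Λ := c * ε / 16 * Real.log N)
      (fun X => single_le_sum (f := fun Q => |SX j s₁ s₂ s₃ s₄ Q X|)
        (fun _ _ => abs_nonneg _) (mem_Icc.2 ⟨hQ1, hQ2⟩))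
      (fun X hX => (hlarge X hX).trans (le_of_eq (by ring))) hDX0 (by positivity)
      (by positivity) (Nat.le_add_right _ _) hζ''
    exact h
  have hmain := avg_primes (j := j) (s₁ := s₁) (s₂ := s₂) (s₃ := s₃) (s₄ := s₄) hC0 hQpos hQ2 hN1 hC
  rw [← hΘ'def] at hmain
  set T := ∑ X ∈ Icc 1 N, 1 / (X : ℝ) ^ 2 * AA j s₁ s₂ s₃ s₄ X with hT
  have hΘ'c : c * Q ≤ Θ' := hΘ.trans hΘΘ'
  have hΘ'pos : 0 < Θ' := lt_of_lt_of_le (by positivity) hΘ'c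
  have b1 : M ≤ Θ' * (M / c) := by
    have : c ≤ Θ' := le_trans (le_mul_of_one_le_right hc.le hQR) hΘ'c
    calc M = c * (M / c) := by field_simp
      _ ≤ Θ' * (M / c) := mul_le_mul_of_nonneg_right this (by positivity)
  have b2 : 2 * Q * (c * ε / 16 * Real.log N) ≤ Θ' * (ε / 8 * Real.log N) := by
    calc 2 * Q * (c * ε / 16 * Real.log N) = c * Q * (ε / 8 * Real.log N) := by ring
      _ ≤ Θ' * (ε / 8 * Real.log N) := mul_le_mul_of_nonneg_right hΘ'c (by positivity)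
  have b3 : (c * ε / 16 * Q + 2 * (ε / 32) * Θ) * (1 + Real.log N) ≤
      Θ' * (ε / 8 * (1 + Real.log N)) := by
    calc (c * ε / 16 * Q + 2 * (ε / 32) * Θ) * (1 + Real.log N) =
        (c * Q + Θ) * (ε / 16 * (1 + Real.log N)) := by ring
      _ ≤ (Θ' + Θ') * (ε / 16 * (1 + Real.log N)) :=
          mul_le_mul_of_nonneg_right (by linarith) (by positivity)
      _ = Θ' * (ε / 8 * (1 + Real.log N)) := by ring
  have b4 : Θ' * |T| ≤ Θ' * (Kst + ε / 4 * Real.log N) := by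
    calc Θ' * |T| ≤ Θ' * (C * (1 + Real.log (2 * Q₂))) + Θ' * (M / c) +
        Θ' * (ε / 8 * Real.log N) + Θ' * (ε / 8 * (1 + Real.log N)) := by linarith
      _ = Θ' * (Kst + ε / 4 * Real.log N) := by rw [hKst]; ring
  have b5 : |T| ≤ Kst + ε / 4 * Real.log N := le_of_mul_le_mul_left b4 hΘ'pos
  have b6 : Kst ≤ ε / 2 * Real.log N := by
    rw [div_le_iff₀ (by positivity)] at hNe
    linarith
  have b7 : 0 ≤ ε * Real.log N := by positivity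
  linarith

end Pool.Agent.W540.EC
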